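import Pool.Agent.H62.LP.T1

/-!
# The Green function of a large ball from below (row GBL of rwl_modules)
-/

set_option autoImplicit false

open MeasureTheory ProbabilityTheory Filter Topology
open scoped ENNReal NNReal

namespace Pool.Agent.H67.LP

open Pool.Agent.H62.LP

lemma nm_le_iff {d : ℕ} (x : Vt d) (r : ℕ) : nm x ≤ r ↔ ∀ i, (x i).natAbs ≤ r := by
  simp [nm, Finset.sup_le_iff]

lemma mem_Bl0 (x : V3) (r : ℕ) : x ∈ Bl 0 r ↔ nm x ≤ r := by
  show nm (x - 0) ≤ r ↔ _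
  rw [sub_zero]

lemma nm_sub_le {d : ℕ} (x y : Vt d) : nm (x - y) ≤ nm x + nm y := by
  rw [nm_le_iff]
  intro i
  have h1 := (nm_le_iff x (nm x)).1 le_rfl i
  have h2 := (nm_le_iff y (nm y)).1 le_rfl i
  have h3 : (x - y) i = x i - y i := rfl
  rw [h3]
  omega

lemma nm_le_sub {d : ℕ} (x y : Vt d) : nm x ≤ nm (x - y) + nm y := by
  rw [nm_le_iff]
  intro i
  have h1 := (nm_le_iff (x - y) (nm (x - y))).1 le_rfl i
  have h2 := (nm_le_iff y (nm y)).1 le_rfl i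
  have h3 : (x - y) i = x i - y i := rfl
  rw [h3] at h1
  omega

lemma wt_QB (B : Set V3) (x : V3) (l : List V3) (h : ∀ u ∈ l, u ∈ B) :
    wt (QB B) x l = wt Q x l := by
  induction l generalizing x with
  | nil => rfl
  | cons y l ih =>
    rw [wt_cons, wt_cons, ih _ (fun u hu => h u (List.mem_cons_of_mem _ hu))]
    rw [QB, if_pos (h y List.mem_cons_self)]

open Classical in
lemma Hk_le (B : Set V3) (x y : V3) (hy : y ∈ B) :
    Hk Q x y ≤ Hk (QB B) x y +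
      ∑' t : List V3, (if ∃ u ∈ t, u ∈ Bᶜ then wt Q x (t ++ [y]) else 0) := by
  rw [Hk, Hk, ← ENNReal.tsum_add]
  refine ENNReal.tsum_le_tsum fun t => ?_
  by_cases h : ∃ u ∈ t, u ∈ Bᶜ
  · rw [if_pos h]
    exact le_add_self
  · rw [if_neg h, add_zero]
    refine (wt_QB B x _ ?_).ge
    intro u hu
    rcases List.mem_append.1 hu with h1 | h1
    · by_contra h2
      exact h ⟨u, h1, h2⟩
    · rw [List.mem_singleton.1 h1]; exact hy

lemma adj_e (x : V3) : Adj x (x + Pi.single 0 1) ∧ Adj (x + Pi.single 0 1) x := by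
  constructor <;> simp [Adj, Fin.sum_univ_three]

lemma Q_adj (x y : V3) (h : Adj x y) : Q x y = 6⁻¹ := by
  rw [Q, if_pos h]; norm_num

lemma Hk_diag (B : Set V3) (x : V3) (hx : x ∈ B) (hx' : x + Pi.single 0 1 ∈ B) :
    (36 : ℝ≥0∞)⁻¹ ≤ Hk (QB B) x x := by
  have h := ENNReal.le_tsum (f := fun t : List V3 => wt (QB B) x (t ++ [x])) [x + Pi.single 0 1]
  refine le_trans (le_of_eq ?_) h
  show _ = wt (QB B) x [x + Pi.single 0 1, x]
  rw [wt_QB B x _ (by simp [hx, hx'])]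
  rw [wt_cons, wt_cons, wt_nil, Q_adj _ _ (adj_e x).1, Q_adj _ _ (adj_e x).2, mul_one,
    ← ENNReal.mul_inv (by simp) (by simp)]
  norm_num

theorem pf_GBL (h1 : T_GUP) (h2 : T_GLO) (h3 : T_HIT) (h4 : T_QAV) (_h5 : T_GTR) : T_GBL := by
  classical
  obtain ⟨C, hC1, hC⟩ := h1
  obtain ⟨c, hc0, hc⟩ := h2
  obtain ⟨k, hk⟩ := exists_nat_ge (82 * C / c)
  have hk' : 82 * C / c ≤ ((k + 20 : ℕ) : ℝ≥0) := hk.trans (by push_cast; exact le_self_add)
  have hkc : C / ((k + 20 : ℕ) : ℝ≥0) ≤ c / 82 := by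
    rw [div_le_iff₀ (by positivity)]
    rw [div_le_iff₀ hc0] at hk'
    calc C = 82 * C / 82 := by field_simp
      _ ≤ ((k + 20 : ℕ) : ℝ≥0) * c / 82 := by gcongr
      _ = c / 82 * ((k + 20 : ℕ) : ℝ≥0) := by ring
  refine ⟨min (c / 82) (1 / 36), k + 40, lt_min (by positivity) (by positivity), by omega, ?_⟩
  intro n B hn hB x hx y hy
  rw [mem_Bl0] at hx hy
  have hnn : (n : ℝ≥0) ≠ 0 := by positivity
  have hn0 : (n : ℝ≥0∞) ≠ 0 := by exact_mod_cast (by omega : n ≠ 0)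
  have hyB : y ∈ B := hB ((mem_Bl0 _ _).2 (by nlinarith))
  rcases eq_or_ne x y with hxy | hxy
  · subst hxy
    have hx' : x + Pi.single 0 1 ∈ B := by
      refine hB ((mem_Bl0 _ _).2 ?_)
      have h6 := nm_le_sub (x + Pi.single 0 1) (Pi.single 0 1 : V3)
      have h7 : nm (Pi.single 0 1 : V3) ≤ 1 := by
        rw [nm_le_iff]
        intro i
        fin_cases i <;> simp
      rw [add_sub_cancel_right] at h6
      nlinarith
    refine le_trans ?_ (Hk_diag B x hyB hx')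
    calc ((min (c / 82) (1 / 36) : ℝ≥0) : ℝ≥0∞) / n ≤ ((1 / 36 : ℝ≥0) : ℝ≥0∞) / 1 := by
          gcongr
          · exact min_le_right _ _
          · exact_mod_cast hn
      _ = 36⁻¹ := by
          rw [div_one, ENNReal.coe_div (by norm_num)]
          norm_num
  · have e1 : (c : ℝ≥0∞) / ((1 + nm (x - y) : ℕ) : ℝ≥0∞) ≤ Hk Q x y := by
      have h6 := hc x y
      unfold Gr Gk at h6
      rwa [if_neg hxy, zero_add] at h6
    have e2 : ((c / 41 / n : ℝ≥0) : ℝ≥0∞) ≤ Hk Q x y := by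
      refine le_trans ?_ e1
      have h6 : ((1 + nm (x - y) : ℕ) : ℝ≥0) ≤ 41 * n := by
        have h7 := nm_sub_le x y
        have h8 : 1 + nm (x - y) ≤ 41 * n := by omega
        exact_mod_cast h8
      have h7 : ((c / ((1 + nm (x - y) : ℕ) : ℝ≥0) : ℝ≥0) : ℝ≥0∞) =
          (c : ℝ≥0∞) / ((1 + nm (x - y) : ℕ) : ℝ≥0∞) := by
        rw [ENNReal.coe_div (by positivity)]
        rfl
      rw [← h7]
      refine ENNReal.coe_le_coe.2 ?_
      rw [div_div]
      gcongr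
    have e3 : ∑' t : List V3, (if ∃ u ∈ t, u ∈ Bᶜ then wt Q x (t ++ [y]) else 0) ≤
        ((C / ((k + 20 : ℕ) : ℝ≥0) / n : ℝ≥0) : ℝ≥0∞) := by
      refine le_trans (le_of_eq (tsum_congr fun t => ?_))
        (h3 V3 Q (fun x => (h4.2.1 x).le) Bᶜ _ x y ?_)
      · congr
      intro z hz
      have h6 : (k + 40) * n < nm z := by
        by_contra h7
        exact hz (hB ((mem_Bl0 _ _).2 (not_lt.1 h7)))
      have h7 := nm_le_sub z y
      have h8 : (k + 20) * n ≤ 1 + nm (z - y) := by nlinarith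
      have h9 : Hk Q z y ≤ Gr z y := by
        unfold Gr Gk
        exact le_add_self
      refine (h9.trans (hC z y)).trans ?_
      have h10 : ((C / ((1 + nm (z - y) : ℕ) : ℝ≥0) : ℝ≥0) : ℝ≥0∞) =
          (C : ℝ≥0∞) / ((1 + nm (z - y) : ℕ) : ℝ≥0∞) := by
        rw [ENNReal.coe_div (by positivity)]
        rfl
      rw [← h10]
      refine ENNReal.coe_le_coe.2 ?_
      rw [div_div]
      gcongr
      exact_mod_cast h8
    have e4 := e2.trans (Hk_le B x y hyB)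
    have e5 : ((c / 41 / n : ℝ≥0) : ℝ≥0∞) = ((c / 82 / n : ℝ≥0) : ℝ≥0∞) + ((c / 82 / n : ℝ≥0) : ℝ≥0∞) := by
      rw [← ENNReal.coe_add]
      congr 1
      field_simp
      norm_num
    have e6 : ((C / ((k + 20 : ℕ) : ℝ≥0) / n : ℝ≥0) : ℝ≥0∞) ≤ ((c / 82 / n : ℝ≥0) : ℝ≥0∞) := by
      refine ENNReal.coe_le_coe.2 ?_
      gcongr
    have e7 : ((c / 82 / n : ℝ≥0) : ℝ≥0∞) + ((c / 82 / n : ℝ≥0) : ℝ≥0∞) ≤
        Hk (QB B) x y + ((c / 82 / n : ℝ≥0) : ℝ≥0∞) := by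
      rw [← e5]
      refine e4.trans ?_
      gcongr
      exact e3.trans e6
    have e8 : ((c / 82 / n : ℝ≥0) : ℝ≥0∞) ≤ Hk (QB B) x y :=
      (ENNReal.add_le_add_iff_right ENNReal.coe_ne_top).1 e7
    refine le_trans ?_ e8
    rw [ENNReal.coe_div hnn]
    gcongr
    · exact min_le_left _ _
    · rfl

end Pool.Agent.H67.LP
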