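import Pool.Agent.H62.LP.T1
import Pool.Agent.H62.LP.T2
import Pool.Agent.H67.LP.GBL

/-!
# Loops which visit a ball and leave a larger ball (row LOC of rwl_modules)
-/

set_option autoImplicit false

open MeasureTheory ProbabilityTheory Filter Topology
open scoped ENNReal NNReal

namespace Pool.Agent.H67.LP

open Pool.Agent.H62.LP

/-- translation of cycles -/
def tre {d : ℕ} (z : Vt d) : Cycle (Vt d) ≃ Cycle (Vt d) where
  toFun c := c.map (· + z)
  invFun c := c.map (· + (-z))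
  left_inv c := by
    induction c using Quotient.inductionOn' with
    | h l =>
      show Cycle.map (· + (-z)) (Cycle.map (· + z) (l : Cycle (Vt d))) = (l : Cycle (Vt d))
      rw [Cycle.map_coe, Cycle.map_coe, List.map_map]
      congr 1
      conv_rhs => rw [← List.map_id l]
      congr 1
      funext x
      simp
  right_inv c := by
    induction c using Quotient.inductionOn' with
    | h l =>
      show Cycle.map (· + z) (Cycle.map (· + (-z)) (l : Cycle (Vt d))) = (l : Cycle (Vt d))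
      rw [Cycle.map_coe, Cycle.map_coe, List.map_map]
      congr 1
      conv_rhs => rw [← List.map_id l]
      congr 1
      funext x
      simp

open Classical in
lemma Rt_symm (h : T_SYM) (h4 : T_QAV) (A B : Set V3) (y a : V3) : Rt A B y a = Rt A B a y := by
  unfold Rt
  rw [← Equiv.tsum_eq (⟨List.reverse, List.reverse, List.reverse_reverse,
    List.reverse_reverse⟩ : List V3 ≃ List V3)]
  refine tsum_congr fun t => ?_
  have h1 : (∀ u ∈ t.reverse, u ∈ B ∧ u ∉ A) ↔ (∀ u ∈ t, u ∈ B ∧ u ∉ A) := by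
    simp only [List.mem_reverse]
  have h2 := (h V3 Q h4.1).1 a y t
  show (if (∀ u ∈ t.reverse, u ∈ B ∧ u ∉ A) then wt Q y (t.reverse ++ [a]) else 0) = _
  by_cases h3 : ∀ u ∈ t, u ∈ B ∧ u ∉ A
  · rw [if_pos h3, if_pos (h1.2 h3), h2]
  · rw [if_neg h3, if_neg (fun h5 => h3 (h1.1 h5))]

open Classical in
theorem loc0 (h1 : T_GUP) (h2 : T_GBL) (h3 : T_MUS) (h4 : T_RTL) (h5 : T_ESC) (h6 : T_SYM)
    (h7 : T_QAV) : ∃ (K : ℕ) (C : ℝ≥0), 2 ≤ K ∧ ∀ r : ℕ, 1 ≤ r →
    ∑' c : Lp, (if (∃ x ∈ c, nm x ≤ r) ∧ (∃ y ∈ c, K * r < nm y) then mu c else 0) ≤ C := by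
  obtain ⟨C₀, hC1, hC⟩ := h1
  obtain ⟨c, M, hc0, hM, hc⟩ := h2
  refine ⟨M, C₀ / ((M - 1 : ℕ) : ℝ≥0) / c, by omega, ?_⟩
  intro r hr
  have hrr : (r : ℝ≥0) ≠ 0 := by positivity
  have hM1 : ((M - 1 : ℕ) : ℝ≥0) ≠ 0 := by
    have : M - 1 ≠ 0 := by omega
    exact_mod_cast this
  set A : Set V3 := Bl 0 r with hA
  set B : Set V3 := Bl 0 (M * r) with hB
  have hAB : A ⊆ B := by
    intro x hx
    rw [hA, mem_Bl0] at hx
    rw [hB, mem_Bl0]
    nlinarith
  -- step 1
  have e1 : ∑' c : Lp, (if (∃ x ∈ c, nm x ≤ r) ∧ (∃ y ∈ c, M * r < nm y) then mu c else 0) =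
      ∑' l : List V3, (if (∃ x ∈ l, x ∈ A) ∧ (∃ y ∈ l, y ∉ B) then lw l else 0) := by
    have h := (h3 3).1 (fun c : Lp =>
      if (∃ x ∈ c, nm x ≤ r) ∧ (∃ y ∈ c, M * r < nm y) then 1 else 0)
    have ha : ∀ c : Lp, (if (∃ x ∈ c, nm x ≤ r) ∧ (∃ y ∈ c, M * r < nm y) then mu c else 0) =
        mu c * (if (∃ x ∈ c, nm x ≤ r) ∧ (∃ y ∈ c, M * r < nm y) then 1 else 0) := by
      intro c
      split_ifs <;> simp
    rw [tsum_congr ha, h]
    refine tsum_congr fun l => ?_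
    have hb : ((∃ x ∈ (l : Lp), nm x ≤ r) ∧ (∃ y ∈ (l : Lp), M * r < nm y)) ↔
        ((∃ x ∈ l, x ∈ A) ∧ (∃ y ∈ l, y ∉ B)) := by
      simp only [Cycle.mem_coe_iff, hA, hB, mem_Bl0, not_le]
    by_cases hh : (∃ x ∈ l, x ∈ A) ∧ (∃ y ∈ l, y ∉ B)
    · rw [if_pos hh, if_pos (hb.2 hh), mul_one]
    · rw [if_neg hh, if_neg (fun h5 => hh (hb.1 h5)), mul_zero]
  rw [e1]
  refine (h4 A B hAB).trans ?_
  -- step 2
  have e2 : ∑' a, ∑' y, (if a ∈ A ∧ y ∉ B then Hk Q a y * Rt A B y a else 0) ≤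
      ((C₀ / ((M - 1 : ℕ) : ℝ≥0) / r : ℝ≥0) : ℝ≥0∞) * ∑' a, (if a ∈ A then esc A B a else 0) := by
    rw [← ENNReal.tsum_mul_left]
    refine ENNReal.tsum_le_tsum fun a => ?_
    by_cases ha : a ∈ A
    · rw [if_pos ha, esc, ← ENNReal.tsum_mul_left]
      refine ENNReal.tsum_le_tsum fun y => ?_
      by_cases hy : y ∉ B
      · rw [if_pos ⟨ha, hy⟩, if_pos hy, Rt_symm h6 h7]
        gcongr
        have h8 : Hk Q a y ≤ Gr a y := by
          unfold Gr Gk
          exact le_add_self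
        refine (h8.trans (hC a y)).trans ?_
        have h10 : ((C₀ / ((1 + nm (a - y) : ℕ) : ℝ≥0) : ℝ≥0) : ℝ≥0∞) =
            (C₀ : ℝ≥0∞) / ((1 + nm (a - y) : ℕ) : ℝ≥0∞) := by
          rw [ENNReal.coe_div (by positivity)]
          rfl
        rw [← h10]
        refine ENNReal.coe_le_coe.2 ?_
        rw [div_div]
        have h11 : ((M - 1 : ℕ) : ℝ≥0) * r ≤ ((1 + nm (a - y) : ℕ) : ℝ≥0) := by
          have h12 := nm_le_sub y a
          have h13 : nm (y - a) = nm (a - y) := by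
            have h14 := nm_le_iff (y - a) (nm (a - y))
            have h15 := nm_le_iff (a - y) (nm (y - a))
            refine le_antisymm (h14.2 fun i => ?_) (h15.2 fun i => ?_)
            · have h16 := (nm_le_iff (a - y) (nm (a - y))).1 le_rfl i
              have h17 : (a - y) i = a i - y i := rfl
              have h18 : (y - a) i = y i - a i := rfl
              rw [h17] at h16
              rw [h18]
              omega
            · have h16 := (nm_le_iff (y - a) (nm (y - a))).1 le_rfl i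
              have h17 : (a - y) i = a i - y i := rfl
              have h18 : (y - a) i = y i - a i := rfl
              rw [h18] at h16
              rw [h17]
              omega
          have h14 : nm a ≤ r := (mem_Bl0 _ _).1 ha
          have h15 : M * r < nm y := by
            by_contra h16
            exact hy ((mem_Bl0 _ _).2 (not_lt.1 h16))
          have h16 : (M - 1) * r ≤ 1 + nm (a - y) := by
            obtain ⟨m, rfl⟩ : ∃ m, M = m + 1 := ⟨M - 1, by omega⟩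
            rw [Nat.add_sub_cancel]
            rw [h13] at h12
            nlinarith
          exact_mod_cast h16
        have h19 : 0 < ((M - 1 : ℕ) : ℝ≥0) * r := by positivity
        exact div_le_div_of_nonneg_left (zero_le) h19 h11
      · rw [if_neg (fun h => hy h.2), if_neg hy, mul_zero]
    · rw [if_neg ha, mul_zero]
      refine le_of_eq (ENNReal.tsum_eq_zero.2 fun y => ?_)
      rw [if_neg (fun h => ha h.1)]
  refine e2.trans ?_
  have h0B : (0 : V3) ∈ B := by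
    rw [hB, mem_Bl0]
    have : nm (0 : V3) = 0 := by
      have := (nm_le_iff (0 : V3) 0).2 (fun i => by simp)
      omega
    omega
  have h00 : nm (0 : V3) = 0 := by
    have := (nm_le_iff (0 : V3) 0).2 (fun i => by simp)
    omega
  have e3 : ((c / r : ℝ≥0) : ℝ≥0∞) * ∑' a, (if a ∈ A then esc A B a else 0) ≤ 1 := by
    refine le_trans ?_ (h5 A B hAB 0 h0B)
    rw [← ENNReal.tsum_mul_left]
    refine ENNReal.tsum_le_tsum fun a => ?_
    by_cases ha : a ∈ A
    · rw [if_pos ha, if_pos ha]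
      gcongr
      have h8 := hc r B hr (by rw [hB]) 0 ((mem_Bl0 _ _).2 (by omega)) a
        ((mem_Bl0 _ _).2 (by have := (mem_Bl0 _ _).1 ha; omega))
      rw [ENNReal.coe_div hrr]
      refine h8.trans ?_
      unfold Gk
      exact le_add_self
    · rw [if_neg ha, if_neg ha, mul_zero]
  calc ((C₀ / ((M - 1 : ℕ) : ℝ≥0) / r : ℝ≥0) : ℝ≥0∞) * ∑' a, (if a ∈ A then esc A B a else 0) =
        ((C₀ / ((M - 1 : ℕ) : ℝ≥0) / c : ℝ≥0) : ℝ≥0∞) *
          (((c / r : ℝ≥0) : ℝ≥0∞) * ∑' a, (if a ∈ A then esc A B a else 0)) := by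
        rw [← mul_assoc, ← ENNReal.coe_mul]
        congr 2
        field_simp
    _ ≤ ((C₀ / ((M - 1 : ℕ) : ℝ≥0) / c : ℝ≥0) : ℝ≥0∞) * 1 := by gcongr
    _ = _ := mul_one _

theorem pf_LOC (h1 : T_GUP) (h2 : T_GBL) (h3 : T_MUS) (h4 : T_RTL) (h5 : T_ESC) (h6 : T_SYM)
    (h7 : T_QAV) (h8 : T_TRL) : T_LOC := by
  classical
  obtain ⟨K, C, hK, h⟩ := loc0 h1 h2 h3 h4 h5 h6 h7
  refine ⟨K, C, hK, fun z r hr => ?_⟩
  refine le_trans (le_of_eq ?_) (h r hr)
  rw [← Equiv.tsum_eq (tre z)]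
  refine tsum_congr fun c => ?_
  have e1 : mu (tre z c) = mu c := (h8 3 z).1 c
  have e2 : ((∃ x ∈ tre z c, nm (x - z) ≤ r) ∧ (∃ y ∈ tre z c, K * r < nm (y - z))) ↔
      ((∃ x ∈ c, nm x ≤ r) ∧ (∃ y ∈ c, K * r < nm y)) := by
    have e3 : ∀ P : V3 → Prop, (∃ x ∈ tre z c, P (x - z)) ↔ ∃ x ∈ c, P x := by
      intro P
      show (∃ x ∈ c.map (· + z), P (x - z)) ↔ _
      simp only [Cycle.mem_map]
      constructor
      · rintro ⟨x, ⟨a, ha, rfl⟩, hx⟩
        exact ⟨a, ha, by simpa using hx⟩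
      · rintro ⟨a, ha, hx⟩
        exact ⟨a + z, ⟨a, ha, rfl⟩, by simpa using hx⟩
    rw [e3 (fun x => nm x ≤ r), e3 (fun y => K * r < nm y)]
  by_cases hh : (∃ x ∈ c, nm x ≤ r) ∧ (∃ y ∈ c, K * r < nm y)
  · rw [if_pos hh, if_pos (e2.2 hh), e1]
  · rw [if_neg hh, if_neg (fun h5 => hh (e2.1 h5))]

end Pool.Agent.H67.LP
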