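import Pool.Agent.H62.LP.T3

/-!
# The merging lemma (row MGF of rwl_modules)
-/

set_option autoImplicit false

open MeasureTheory ProbabilityTheory Filter Topology
open scoped ENNReal NNReal

namespace Pool.Agent.H67.LP

open Pool.Agent.H62.LP

theorem ev_small (c η : ℝ) (hc : 0 < c) (hη : 0 < η) :
    ∃ s₀ : ℕ, ∀ s : ℕ, s₀ ≤ s → 64 * ((s : ℝ) + 1) ^ 12 * Real.exp (-(c * s)) ≤ η := by
  have h1 : Tendsto (fun s : ℕ => c * ((s : ℝ) + 1)) atTop atTop := by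
    refine Tendsto.const_mul_atTop hc ?_
    exact tendsto_atTop_add_const_right _ _ tendsto_natCast_atTop_atTop
  have h2 := (Real.tendsto_pow_mul_exp_neg_atTop_nhds_zero 12).comp h1
  have h3 := h2.const_mul (64 * Real.exp c / c ^ 12)
  rw [mul_zero] at h3
  have h4 := (h3.eventually (gt_mem_nhds hη))
  obtain ⟨s₀, hs₀⟩ := eventually_atTop.1 h4
  refine ⟨s₀, fun s hs => ?_⟩
  refine le_trans (le_of_eq ?_) (hs₀ s hs).le
  simp only [Function.comp]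
  have h5 : Real.exp (-(c * ((s : ℝ) + 1))) = Real.exp (-(c * s)) * (Real.exp c)⁻¹ := by
    rw [← Real.exp_neg, ← Real.exp_add]
    congr 1
    ring
  rw [h5, mul_pow]
  have := Real.exp_pos c
  field_simp

theorem base_nonneg (s : ℕ) (c : ℝ) :
    (0 : ℝ) ≤ 64 * ((s : ℝ) + 1) ^ 12 * Real.exp (-(c * s)) := by positivity

theorem qq_le (β s t K₀ : ℕ) (p : ℝ) (hp : 0 < p) (hp1 : p ≤ 1) (hs : s = Nat.sqrt t)
    (ht : t = Nat.sqrt β) : qq β s t K₀ p ≤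
    Real.exp p * (64 * ((s : ℝ) + 1) ^ 12 *
      Real.exp (-((p / ((2 * K₀ + 1) ^ 3 : ℕ)) * s))) ^ s := by
  set k : ℕ := (2 * K₀ + 1) ^ 3 with hk
  have hk0 : 0 < k := by positivity
  have hk0' : (0 : ℝ) < k := by exact_mod_cast hk0
  have e1 : s * s ≤ t := by rw [hs]; exact Nat.sqrt_le t
  have e2 : t < (s + 1) * (s + 1) := by rw [hs]; exact Nat.lt_succ_sqrt t
  have e3 : β < (t + 1) * (t + 1) := by rw [ht]; exact Nat.lt_succ_sqrt β
  unfold qq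
  have f1 : (((4 * β + 1) ^ 3 + 1 : ℕ) : ℝ) ≤ 64 * ((s : ℝ) + 1) ^ 12 := by
    have g1 : (4 * β + 1) ^ 3 + 1 ≤ 64 * (s + 1) ^ 12 := by
      have g2 : t + 1 ≤ (s + 1) ^ 2 := by nlinarith
      have g3 : β + 1 ≤ (s + 1) ^ 4 := by
        calc β + 1 ≤ (t + 1) ^ 2 := by nlinarith
          _ ≤ ((s + 1) ^ 2) ^ 2 := Nat.pow_le_pow_left g2 2
          _ = (s + 1) ^ 4 := by ring
      calc (4 * β + 1) ^ 3 + 1 ≤ (4 * β + 1) ^ 3 + (3 * (4 * β + 1) ^ 2 + 3 * (4 * β + 1) + 1) := by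
            omega
        _ = (4 * β + 2) ^ 3 := by ring
        _ ≤ (4 * (β + 1)) ^ 3 := Nat.pow_le_pow_left (by omega) 3
        _ ≤ (4 * (s + 1) ^ 4) ^ 3 := Nat.pow_le_pow_left (Nat.mul_le_mul_left 4 g3) 3
        _ = 64 * (s + 1) ^ 12 := by ring
    exact_mod_cast g1
  have f2 : (1 - p) ^ (t / k) ≤ Real.exp p * Real.exp (-((p / k) * s)) ^ s := by
    have g1 : (1 - p) ^ (t / k) ≤ Real.exp (-p) ^ (t / k) := by
      refine pow_le_pow_left₀ (by linarith) ?_ _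
      have := Real.add_one_le_exp (-p)
      linarith
    refine g1.trans ?_
    rw [← Real.exp_nat_mul, ← Real.exp_nat_mul, ← Real.exp_add]
    refine Real.exp_le_exp.2 ?_
    have g2 : (t : ℝ) < k * ((t / k : ℕ) + 1) := by
      have := Nat.lt_mul_div_succ t hk0
      exact_mod_cast this
    have g3 : (s : ℝ) * s ≤ t := by exact_mod_cast e1
    have g4 : (s : ℝ) * s / k ≤ (t / k : ℕ) + 1 := by
      rw [div_le_iff₀ hk0']
      linarith
    have g5 : (s : ℝ) * -(p / k * s) = -(p * ((s : ℝ) * s / k)) := by ring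
    rw [g5]
    nlinarith
  calc _ ≤ (64 * ((s : ℝ) + 1) ^ 12) ^ s * (Real.exp p * Real.exp (-((p / k) * s)) ^ s) := by
        refine mul_le_mul (pow_le_pow_left₀ (Nat.cast_nonneg _) f1 s) f2 ?_ (by positivity)
        exact pow_nonneg (by linarith) _
    _ = _ := by
        rw [mul_pow (64 * ((s : ℝ) + 1) ^ 12)]
        ring

theorem pf_MGF (h : T_ITR) : T_MGF := by
  intro p K₀ δ hp hp1 hδ
  set c : ℝ := p / ((2 * K₀ + 1) ^ 3 : ℕ) with hc
  have hk0 : (0 : ℝ) < ((2 * K₀ + 1) ^ 3 : ℕ) := by positivity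
  have hc0 : 0 < c := by positivity
  obtain ⟨s₀, hs₀⟩ := ev_small c (min 1 (δ / (20 * Real.exp p))) hc0
    (lt_min one_pos (by positivity))
  refine ⟨(s₀ + 22) ^ 4, ?_⟩
  intro β hβ Ω _ P _ T Lnk hT hL
  obtain ⟨t, ht⟩ : ∃ t, t = Nat.sqrt β := ⟨_, rfl⟩
  obtain ⟨s, hs⟩ : ∃ s, s = Nat.sqrt t := ⟨_, rfl⟩
  have e0 : t * t ≤ β := by rw [ht]; exact Nat.sqrt_le β
  have e1 : s * s ≤ t := by rw [hs]; exact Nat.sqrt_le t
  have e2 : t < (s + 1) * (s + 1) := by rw [hs]; exact Nat.lt_succ_sqrt t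
  have e3 : β < (t + 1) * (t + 1) := by rw [ht]; exact Nat.lt_succ_sqrt β
  have e4 : (s₀ + 22) * (s₀ + 22) ≤ t := by
    rw [ht, Nat.le_sqrt]
    calc _ = (s₀ + 22) ^ 4 := by ring
      _ ≤ β := hβ
  have e5 : s₀ + 22 ≤ s := by rw [hs, Nat.le_sqrt]; exact e4
  have e6 : 22 ≤ t := by nlinarith
  have hb : t + 1 ≤ β / 20 := by
    rw [Nat.le_div_iff_mul_le (by norm_num)]
    nlinarith
  have hpow : (4 * β + 1) ^ 3 < (s + 1) ^ 20 := by
    have g2 : t + 1 ≤ (s + 1) ^ 2 := by nlinarith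
    have g3 : β + 1 ≤ (s + 1) ^ 4 := by
      calc β + 1 ≤ (t + 1) ^ 2 := by nlinarith
        _ ≤ ((s + 1) ^ 2) ^ 2 := Nat.pow_le_pow_left g2 2
        _ = (s + 1) ^ 4 := by ring
    have g4 : 64 < (β + 1) ^ 2 := by nlinarith
    calc (4 * β + 1) ^ 3 ≤ (4 * (β + 1)) ^ 3 := Nat.pow_le_pow_left (by omega) 3
      _ = 64 * (β + 1) ^ 3 := by ring
      _ < (β + 1) ^ 2 * (β + 1) ^ 3 := Nat.mul_lt_mul_of_pos_right g4 (by positivity)
      _ = (β + 1) ^ 5 := by ring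
      _ ≤ ((s + 1) ^ 4) ^ 5 := Nat.pow_le_pow_left g3 5
      _ = (s + 1) ^ 20 := by ring
  have h1 := h Ω P 20 β K₀ (β / 20) t s p T Lnk hp hp1 hT hL hpow (Nat.mul_div_le β 20)
    (by omega) hb
  refine h1.trans ?_
  have h2 := qq_le β s t K₀ p hp hp1 hs ht
  have h3 := hs₀ s (by omega)
  have h4 := base_nonneg s c
  have h5 : (64 * ((s : ℝ) + 1) ^ 12 * Real.exp (-(c * s))) ^ s ≤ δ / (20 * Real.exp p) := by
    calc _ ≤ (64 * ((s : ℝ) + 1) ^ 12 * Real.exp (-(c * s))) ^ 1 :=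
          pow_le_pow_of_le_one h4 (h3.trans (min_le_left _ _)) (by omega)
      _ = _ := pow_one _
      _ ≤ _ := h3.trans (min_le_right _ _)
  have h6 : 20 * qq β s t K₀ p ≤ δ := by
    calc 20 * qq β s t K₀ p ≤ 20 * (Real.exp p * (δ / (20 * Real.exp p))) := by
          refine mul_le_mul_of_nonneg_left ?_ (by norm_num)
          exact h2.trans (mul_le_mul_of_nonneg_left h5 (Real.exp_pos _).le)
      _ = δ := by
          have := Real.exp_pos p
          field_simp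
  calc ((20 : ℕ) : ℝ≥0∞) * ENNReal.ofReal (qq β s t K₀ p) =
        ENNReal.ofReal (20 * qq β s t K₀ p) := by
        rw [ENNReal.ofReal_mul (by norm_num)]
        norm_num
    _ ≤ ENNReal.ofReal δ := ENNReal.ofReal_le_ofReal h6

end Pool.Agent.H67.LP
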