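import Pool.Agent.H62.LP.T1
import Pool.Agent.H62.LP.T4

/-!
# The law of the union of all loops (row TOT of rwl_modules)
-/

set_option autoImplicit false

open MeasureTheory ProbabilityTheory Filter Topology
open scoped ENNReal NNReal

namespace Pool.Agent.H67.LP

open Pool.Agent.H62.LP

theorem pf_TOT (h : T_CUR) : T_TOT := by
  intro α ε
  have : Countable (Cycle V3) := inferInstanceAs (Countable (Quotient (List.IsRotated.setoid V3)))
  have h1 := (h (Cycle V3) 20 (inten 3 α) (inten 3 ε)).1
  have h2 : (fun c => inten 3 α c + (20 : ℕ) * inten 3 ε c) = inten 3 (α + 20 * ε) := by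
    funext c
    unfold inten
    push_cast
    ring
  rw [h2] at h1
  exact h1

end Pool.Agent.H67.LP
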