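import Pool.Agent.H62.LP.T1
import Pool.Agent.H62.LP.T2

/-!
# Loops which meet two fat sets (row TWO of rwl_modules)
-/

set_option autoImplicit false

open MeasureTheory ProbabilityTheory Filter Topology
open scoped ENNReal NNReal

namespace Pool.Agent.H67.LP

open Pool.Agent.H62.LP

lemma vis_zero {V : Type} (w : V → ℝ≥0∞) (l : List V) (h : ¬ ∃ x ∈ l, w x ≠ 0) : vis w l = 0 := by
  unfold vis
  induction l with
  | nil => rfl
  | cons a l ih =>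
    rw [List.map_cons, List.sum_cons]
    have h1 : w a = 0 := by
      by_contra h2
      exact h ⟨a, List.mem_cons_self, h2⟩
    rw [h1, zero_add]
    exact ih (fun ⟨x, hx, hw⟩ => h ⟨x, List.mem_cons_of_mem _ hx, hw⟩)

lemma list_mul_sum {V : Type} (a : ℝ≥0∞) (w : V → ℝ≥0∞) (l : List V) :
    (l.map (fun b => a * w b)).sum = a * (l.map w).sum := by
  induction l with
  | nil => simp
  | cons b l ih => rw [List.map_cons, List.map_cons, List.sum_cons, List.sum_cons, ih, mul_add]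

lemma list_sum_mul {V : Type} (a : ℝ≥0∞) (w : V → ℝ≥0∞) (l : List V) :
    (l.map (fun b => w b * a)).sum = (l.map w).sum * a := by
  induction l with
  | nil => simp
  | cons b l ih => rw [List.map_cons, List.map_cons, List.sum_cons, List.sum_cons, ih, add_mul]

lemma vis2_sq {V : Type} (w : V → ℝ≥0∞) (l : List V) :
    vis2 (fun b b' => w b * w b') l = vis w l ^ 2 := by
  unfold vis2 vis
  have h : (fun b => (l.map (fun b' => w b * w b')).sum) = fun b => w b * (l.map w).sum := by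
    funext b
    exact list_mul_sum _ _ _
  rw [h, list_sum_mul, sq]

lemma erg_le (w : V3 → ℝ≥0∞) (h : ∀ x, pot w x ≤ 1) : erg w w ≤ mass w := by
  unfold erg mass
  refine ENNReal.tsum_le_tsum fun x => ?_
  have h1 : ∑' y, w x * w y * Gr x y = w x * pot w x := by
    unfold pot
    rw [← ENNReal.tsum_mul_left]
    refine tsum_congr fun y => ?_
    rw [mul_assoc, mul_comm (w y)]
  rw [h1]
  calc w x * pot w x ≤ w x * 1 := by gcongr; exact h x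
    _ = w x := mul_one _

theorem pf_TWO (h1 : T_LOW) (h2 : T_UP2) (h3 : T_UH2) (h4 : T_CS) : T_TWO := by
  classical
  intro C₀ c κ M hU hB hκ
  have hC0 : 0 < C₀ := lt_of_lt_of_le one_pos hU.1
  have hc0 : 0 < c := hB.1
  refine ⟨c ^ 8 * κ ^ 3 / (8 * C₀ ^ 5), by positivity, ?_⟩
  intro n hn w₁ w₂ hw1 hw2 hfar hm1 hm2 hp1 hp2
  have hnn : (n : ℝ≥0) ≠ 0 := by positivity
  have hn0 : (n : ℝ≥0∞) ≠ 0 := by exact_mod_cast (by omega : n ≠ 0)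
  set g : List V3 → ℝ≥0∞ := fun l =>
    if (∀ x ∈ l, x ∈ Bl 0 (M * n)) ∧ (∃ x ∈ l, w₁ x ≠ 0) ∧ (∃ x ∈ l, w₂ x ≠ 0) then 1 else 0
    with hg
  have hg2 : ∀ l, g l ^ 2 = g l := by
    intro l
    simp only [hg]
    split_ifs <;> simp
  -- lower bound
  have e1 := h1 c M hB n hn w₁ w₂ hw1 hw2
  have e1' : ((c / n * (κ * n) : ℝ≥0) : ℝ≥0∞) ^ 2 ≤
      ∑' l : List V3, (lw l * vis w₁ l) * (vis w₂ l * g l) := by
    refine le_trans (le_of_eq ?_) (e1.trans (le_of_eq (tsum_congr fun l => ?_)))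
    · rw [hm1, hm2]
      rw [ENNReal.coe_mul, ENNReal.coe_mul, ENNReal.coe_div hnn]
      push_cast
      ring
    · simp only [hg]
      by_cases hI : ∀ x ∈ l, x ∈ Bl 0 (M * n)
      · by_cases hP1 : ∃ x ∈ l, w₁ x ≠ 0
        · by_cases hP2 : ∃ x ∈ l, w₂ x ≠ 0
          · rw [if_pos hI, if_pos ⟨hI, hP1, hP2⟩, mul_one, mul_assoc]
          · rw [vis_zero w₂ l hP2]; simp
        · rw [vis_zero w₁ l hP1]; simp
      · rw [if_neg hI, if_neg (fun h => hI h.1)]; simp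
  have e1'' : (c / n * (κ * n) : ℝ≥0) = c * κ := by field_simp
  rw [e1''] at e1'
  -- first Cauchy-Schwarz
  have e2 := h4 (List V3) (fun l => lw l * vis w₁ l) (fun l => vis w₂ l) g
  have e3 := h2 C₀ hU n hn {x | w₁ x ≠ 0} {x | w₂ x ≠ 0} (fun x hx y hy => hfar x y hx hy) w₁
    (fun b b' => w₂ b * w₂ b') (fun x hx => hx)
    (fun b b' hb => ⟨fun h => hb (by rw [h, zero_mul]), fun h => hb (by rw [h, mul_zero])⟩)
    (fun b b' => mul_comm _ _)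
  have e3' : ∑' l : List V3, (lw l * vis w₁ l) * vis w₂ l ^ 2 ≤
      ((2 * C₀ ^ 2 * κ ^ 2 : ℝ≥0) : ℝ≥0∞) := by
    refine le_trans (le_of_eq (tsum_congr fun l => ?_)) (e3.trans ?_)
    · rw [vis2_sq, mul_assoc]
    · calc 2 * ((C₀ : ℝ≥0∞) / (n : ℝ≥0∞)) ^ 2 *
            (mass w₁ * ∑' b, ∑' b', w₂ b * w₂ b' * Gr b b') ≤
            2 * ((C₀ : ℝ≥0∞) / (n : ℝ≥0∞)) ^ 2 * ((κ * n) * (κ * n)) := by
            gcongr
            · exact hm1.le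
            · exact (erg_le w₂ hp2).trans hm2.le
        _ = ((2 * (C₀ / n) ^ 2 * ((κ * n) * (κ * n)) : ℝ≥0) : ℝ≥0∞) := by
            push_cast
            rw [ENNReal.coe_div hnn]
            rfl
        _ = _ := by
            congr 1
            field_simp
  -- second Cauchy-Schwarz
  have e4 := h4 (List V3) (fun l => if ∃ x ∈ l, w₂ x ≠ 0 then lw l else 0) (fun l => vis w₁ l) g
  have e5 := h3 C₀ hU n hn {x | w₁ x ≠ 0} {x | w₂ x ≠ 0} (fun x hx y hy => hfar x y hx hy) w₁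
    (fun x hx => hx)
  have e5' : ∑' l : List V3, (if ∃ x ∈ l, w₂ x ≠ 0 then lw l else 0) * vis w₁ l ^ 2 ≤
      ((2 * C₀ * κ : ℝ≥0) : ℝ≥0∞) := by
    refine le_trans (le_of_eq (tsum_congr fun l => ?_)) (e5.trans ?_)
    · by_cases hP2 : ∃ x ∈ l, w₂ x ≠ 0
      · rw [if_pos hP2]
        exact (if_pos (by simpa using hP2)).symm
      · rw [if_neg hP2, zero_mul]
        exact (if_neg (by simpa using hP2)).symm
    · calc 2 * ((C₀ : ℝ≥0∞) / (n : ℝ≥0∞)) * erg w₁ w₁ ≤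
            2 * ((C₀ : ℝ≥0∞) / (n : ℝ≥0∞)) * (κ * n) := by
            gcongr
            exact (erg_le w₁ hp1).trans hm1.le
        _ = ((2 * (C₀ / n) * (κ * n) : ℝ≥0) : ℝ≥0∞) := by
            push_cast
            rw [ENNReal.coe_div hnn]
            rfl
        _ = _ := by
            congr 1
            field_simp
  set Z : ℝ≥0∞ := ∑' l : List V3, (lw l * vis w₁ l) * g l ^ 2 with hZ
  have e6 : ∑' l : List V3, (if ∃ x ∈ l, w₂ x ≠ 0 then lw l else 0) * (vis w₁ l * g l) = Z := by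
    rw [hZ]
    refine tsum_congr fun l => ?_
    rw [hg2]
    simp only [hg]
    by_cases hP2 : ∃ x ∈ l, w₂ x ≠ 0
    · rw [if_pos hP2, mul_assoc]
    · rw [if_neg hP2, if_neg (fun h => hP2 h.2.2)]; simp
  set Y : ℝ≥0∞ := ∑' l : List V3, if (∀ x ∈ l, x ∈ Bl 0 (M * n)) ∧ (∃ x ∈ l, w₁ x ≠ 0) ∧
      (∃ x ∈ l, w₂ x ≠ 0) then lw l else 0 with hY
  have e7 : ∑' l : List V3, (if ∃ x ∈ l, w₂ x ≠ 0 then lw l else 0) * g l ^ 2 = Y := by
    rw [hY]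
    refine tsum_congr fun l => ?_
    rw [hg2]
    simp only [hg]
    by_cases hall : (∀ x ∈ l, x ∈ Bl 0 (M * n)) ∧ (∃ x ∈ l, w₁ x ≠ 0) ∧ (∃ x ∈ l, w₂ x ≠ 0)
    · rw [if_pos hall, if_pos hall, if_pos hall.2.2, mul_one]
    · rw [if_neg hall, if_neg hall, mul_zero]
  rw [e6, e7] at e4
  have f1 : ((c * κ : ℝ≥0) : ℝ≥0∞) ^ 4 ≤ ((2 * C₀ ^ 2 * κ ^ 2 : ℝ≥0) : ℝ≥0∞) * Z := by
    calc ((c * κ : ℝ≥0) : ℝ≥0∞) ^ 4 = (((c * κ : ℝ≥0) : ℝ≥0∞) ^ 2) ^ 2 := by ring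
      _ ≤ (∑' l : List V3, (lw l * vis w₁ l) * (vis w₂ l * g l)) ^ 2 := by gcongr
      _ ≤ _ := e2.trans (by gcongr)
  have f2 : ((c * κ : ℝ≥0) : ℝ≥0∞) ^ 8 ≤
      ((8 * C₀ ^ 5 * κ ^ 5 : ℝ≥0) : ℝ≥0∞) * Y := by
    calc ((c * κ : ℝ≥0) : ℝ≥0∞) ^ 8 = (((c * κ : ℝ≥0) : ℝ≥0∞) ^ 4) ^ 2 := by ring
      _ ≤ (((2 * C₀ ^ 2 * κ ^ 2 : ℝ≥0) : ℝ≥0∞) * Z) ^ 2 := by gcongr
      _ = ((2 * C₀ ^ 2 * κ ^ 2 : ℝ≥0) : ℝ≥0∞) ^ 2 * Z ^ 2 := by ring
      _ ≤ ((2 * C₀ ^ 2 * κ ^ 2 : ℝ≥0) : ℝ≥0∞) ^ 2 * (((2 * C₀ * κ : ℝ≥0) : ℝ≥0∞) * Y) := by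
          gcongr
          exact e4.trans (by gcongr)
      _ = _ := by
          push_cast
          ring
  have f3 : ((8 * C₀ ^ 5 * κ ^ 5 : ℝ≥0) : ℝ≥0∞) * ((c ^ 8 * κ ^ 3 / (8 * C₀ ^ 5) : ℝ≥0) : ℝ≥0∞) ≤
      ((8 * C₀ ^ 5 * κ ^ 5 : ℝ≥0) : ℝ≥0∞) * Y := by
    refine le_trans (le_of_eq ?_) f2
    rw [← ENNReal.coe_mul, ← ENNReal.coe_pow]
    congr 1
    field_simp
  exact (ENNReal.mul_le_mul_iff_right (by
    have : (8 * C₀ ^ 5 * κ ^ 5 : ℝ≥0) ≠ 0 := by positivity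
    exact_mod_cast this) ENNReal.coe_ne_top).1 f3

end Pool.Agent.H67.LP
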