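import Pool.Agent.H62.LP.T1

/-!
# Void probabilities of Poisson processes (row VOI of rwl_modules)
-/

set_option autoImplicit false

open MeasureTheory ProbabilityTheory Filter Topology
open scoped ENNReal NNReal

namespace Pool.Agent.H67.LP

open Pool.Agent.H62.LP

lemma pm_zero (r : ℝ≥0) : poissonMeasure r {0} = ENNReal.ofReal (Real.exp (-(r : ℝ))) := by
  rw [poissonMeasure_singleton]
  simp

lemma prod_exp {ι : Type} (q : ι → ℝ≥0) (s : Finset ι) :
    ∏ i ∈ s, ENNReal.ofReal (Real.exp (-(q i : ℝ))) =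
      ENNReal.ofReal (Real.exp (-∑ i ∈ s, (q i : ℝ))) := by
  rw [← ENNReal.ofReal_prod_of_nonneg (fun i _ => (Real.exp_pos _).le), ← Real.exp_sum,
    Finset.sum_neg_distrib]

lemma ofReal_sum' {ι : Type} (q : ι → ℝ≥0) (s : Finset ι) :
    ENNReal.ofReal (∑ i ∈ s, (q i : ℝ)) = ∑ i ∈ s, (q i : ℝ≥0∞) := by
  rw [ENNReal.ofReal_sum_of_nonneg (fun i _ => (q i).coe_nonneg)]
  exact Finset.sum_congr rfl (fun i _ => (ENNReal.ofReal_coe_nnreal))

lemma void_eq {Λ : Type} [Countable Λ] (q : Λ → ℝ≥0) (P : Set Λ) :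
    pois q {N | ∀ c ∈ P, N c = 0} =
      ⨅ s : Finset P, ENNReal.ofReal (Real.exp (-∑ i ∈ s, (q i : ℝ))) := by
  have h1 : {N : Λ → ℕ | ∀ c ∈ P, N c = 0} = Set.pi P (fun _ => ({0} : Set ℕ)) := by
    ext N; simp [Set.mem_pi]
  rw [h1, pois, Measure.infinitePi_pi_of_countable _ (inferInstance : Countable P)
    (fun i _ => MeasurableSet.singleton 0), ENNReal.tprod_eq_iInf_prod (fun i => prob_le_one)]
  congr 1
  funext s
  rw [← prod_exp]
  exact Finset.prod_congr rfl (fun i _ => pm_zero _)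

open Classical in
lemma sum_eq {Λ : Type} (q : Λ → ℝ≥0) (P : Set Λ) :
    ∑' c, (if c ∈ P then (q c : ℝ≥0∞) else 0) = ⨆ s : Finset P, ∑ i ∈ s, (q i : ℝ≥0∞) := by
  rw [← ENNReal.tsum_eq_iSup_sum, tsum_subtype P (fun c => (q c : ℝ≥0∞))]
  rfl

lemma void_le {Λ : Type} [Countable Λ] (q : Λ → ℝ≥0) (P : Set Λ) (x : ℝ)
    (h : ENNReal.ofReal x ≤ ⨆ s : Finset P, ∑ i ∈ s, (q i : ℝ≥0∞)) :
    pois q {N | ∀ c ∈ P, N c = 0} ≤ ENNReal.ofReal (Real.exp (-x)) := by
  have key : ∀ y : ℝ, y < x → pois q {N | ∀ c ∈ P, N c = 0} ≤ ENNReal.ofReal (Real.exp (-y)) := by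
    intro y hy
    rcases lt_or_ge y 0 with h0 | h0
    · refine prob_le_one.trans ?_
      rw [← ENNReal.ofReal_one]
      exact ENNReal.ofReal_le_ofReal (by rw [← Real.exp_zero]; exact Real.exp_le_exp.2 (by linarith))
    · have h1 : ENNReal.ofReal y < ⨆ s : Finset P, ∑ i ∈ s, (q i : ℝ≥0∞) :=
        lt_of_lt_of_le ((ENNReal.ofReal_lt_ofReal_iff (by linarith)).2 hy) h
      obtain ⟨s, hs⟩ := lt_iSup_iff.1 h1
      rw [void_eq]
      refine (iInf_le _ s).trans (ENNReal.ofReal_le_ofReal (Real.exp_le_exp.2 ?_))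
      have h2 : ENNReal.ofReal y < ENNReal.ofReal (∑ i ∈ s, (q i : ℝ)) := by
        exact hs.trans_eq (ofReal_sum' (fun i : P => q i) s).symm
      have h3 := (ENNReal.ofReal_lt_ofReal_iff_of_nonneg h0).1 h2
      linarith
  have hc : Tendsto (fun y : ℝ => ENNReal.ofReal (Real.exp (-y))) (𝓝[<] x)
      (𝓝 (ENNReal.ofReal (Real.exp (-x)))) := by
    refine Tendsto.mono_left ?_ nhdsWithin_le_nhds
    exact (ENNReal.continuous_ofReal.comp (Real.continuous_exp.comp continuous_neg)).tendsto x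
  exact ge_of_tendsto hc (eventually_nhdsWithin_of_forall fun y hy => key y hy)

theorem pf_VOI : T_VOI := by
  intro Λ _ q P x hx
  constructor
  · intro h
    rw [sum_eq] at h
    have h1 := void_le q P x h
    have hm : MeasurableSet {N : Λ → ℕ | ∀ c ∈ P, N c = 0} := by
      have : {N : Λ → ℕ | ∀ c ∈ P, N c = 0} = Set.pi P (fun _ => ({0} : Set ℕ)) := by
        ext N; simp [Set.mem_pi]
      rw [this]
      exact MeasurableSet.pi (Set.to_countable P) (fun _ _ => MeasurableSet.singleton 0)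
    have hs : {N : Λ → ℕ | ∃ c ∈ P, 1 ≤ N c} = {N : Λ → ℕ | ∀ c ∈ P, N c = 0}ᶜ := by
      ext N
      simp only [Set.mem_ofPred_eq, Set.mem_compl_iff, not_forall]
      constructor
      · rintro ⟨c, hc, h⟩
        exact ⟨c, hc, by omega⟩
      · rintro ⟨c, hc, h⟩
        exact ⟨c, hc, by omega⟩
    rw [hs, prob_compl_eq_one_sub hm, ENNReal.ofReal_sub _ (Real.exp_pos _).le, ENNReal.ofReal_one]
    exact tsub_le_tsub_left h1 _
  · intro h
    rw [sum_eq] at h
    rw [void_eq]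
    refine le_iInf fun s => ENNReal.ofReal_le_ofReal (Real.exp_le_exp.2 ?_)
    have h1 := (le_iSup (fun s : Finset P => ∑ i ∈ s, (q i : ℝ≥0∞)) s).trans h
    have h2 : ENNReal.ofReal (∑ i ∈ s, (q i : ℝ)) ≤ ENNReal.ofReal x := by
      exact le_trans (le_of_eq (ofReal_sum' (fun i : P => q i) s)) h1
    have h3 := (ENNReal.ofReal_le_ofReal_iff hx).1 h2
    linarith

end Pool.Agent.H67.LP
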