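import Pool.Agent.H62.LP.T1

/-!
# The zero-one law for Poisson processes (row Z01 of rwl_modules)
-/

set_option autoImplicit false

open MeasureTheory ProbabilityTheory Filter Topology
open scoped ENNReal NNReal

namespace Pool.Agent.H67.LP

open Pool.Agent.H62.LP

theorem pf_Z01 : T_Z01 := by
  classical
  intro Λ _ q E hE hfin
  have hind : iIndep (fun c : Λ => MeasurableSpace.comap (fun N : Λ → ℕ => N c) inferInstance)
      (pois q) := by
    have h := iIndepFun_infinitePi (P := fun c : Λ => poissonMeasure (q c))
      (X := fun (_ : Λ) (x : ℕ) => x) (fun _ => measurable_id)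
    exact h
  refine measure_zero_or_one_of_measurableSet_limsup (s := fun c : Λ =>
    MeasurableSpace.comap (fun N : Λ → ℕ => N c) inferInstance) (f := cofinite)
    (p := fun t : Set Λ => t.Finite) (ns := fun s : Finset Λ => (s : Set Λ))
    (fun c => (measurable_pi_apply c).comap_le) hind (fun t ht => by simpa using ht) ?_
    (fun s => s.finite_toSet) (fun c => ⟨{c}, by simp⟩) ?_
  · intro s t
    exact ⟨s ∪ t, by simp, by simp⟩
  · rw [limsup_eq_iInf_iSup]
    refine MeasurableSpace.measurableSet_iInf.2 fun t => ?_
    refine MeasurableSpace.measurableSet_iInf.2 fun ht => ?_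
    have hg : Measurable[⨆ a ∈ t, MeasurableSpace.comap (fun N : Λ → ℕ => N a) inferInstance]
        (fun (N : Λ → ℕ) (c : Λ) => if c ∈ t then N c else 0) := by
      refine @measurable_pi_lambda _ _ _ (_) _ _ fun c => ?_
      by_cases hc : c ∈ t
      · simp only [hc, if_true]
        have h1 : Measurable[MeasurableSpace.comap (fun N : Λ → ℕ => N c) inferInstance]
            (fun N : Λ → ℕ => N c) := comap_measurable _
        refine h1.mono ?_ le_rfl
        exact le_iSup₂_of_le c hc le_rfl
      · simp only [hc, if_false]
        exact @measurable_const _ _ _ (_) _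
    have he : (fun (N : Λ → ℕ) (c : Λ) => if c ∈ t then N c else 0) ⁻¹' E = E := by
      ext N
      refine hfin _ _ (Set.Finite.subset (s := tᶜ) (by simpa using ht) ?_)
      intro c hc
      by_contra h
      simp only [Set.mem_compl_iff, not_not] at h
      apply hc
      simp [h]
    have h2 := hg hE
    rw [he] at h2
    exact h2

end Pool.Agent.H67.LP
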